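import Pool.Agent.H.MP_3abf0f_al.Harm

set_option autoImplicit false
open Function Pool.Agent.H.MP_3abf0f_al Harm

namespace Pool.Agent.Results.MP_3abf0f_al.Harmonious

def L : List (ℤ × ℤ) := [(0, 0), (1, 0), (2, 0), (3, 0), (4, 0), (0, 1), (5, 0), (1, 1), (6, 0),
  (2, 1), (6, 1), (4, 1), (7, 0), (3, 1), (7, 1), (5, 1), (0, 0)]

def V (k : ℤ) : ℤ × ℤ := L.getD k.toNat 0

def pr (u v : ℤ × ℤ) : ℤ × ℤ :=
  if u.2 = 0 then (u.1 + v.1, v.2) else (u.1 - v.1 + 4 * v.1, 1 + v.2)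

lemma key {G : Type*} [Group G] {q : ℕ} {a b : G} (H : SD q a b) (hq : q = 1 ∨ 2 ≤ q ∧ q % 2 = 0)
    (m : ℕ) [NeZero m] (hm : m = 16 * q) :
    ∃ g : ZMod m → G, Injective g ∧ Injective fun i => g i * g (i + 1) := by
  rcases hq with rfl | hq
  · refine ⟨_, cyc m (fun k => a ^ (V k).1 * b ^ (V k).2) (· * ·) (by subst hm; rfl)
      fun k l h0 h1 h2 h3 h => ?_⟩
    subst hm
    lift k to ℕ using h0
    lift l to ℕ using h2
    have e : ∀ k : ℕ, k < 16 → a ^ (V k).1 * b ^ (V k).2 * (a ^ (V (k + 1)).1 * b ^ (V (k + 1)).2) =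
        a ^ (pr (V k) (V (k + 1))).1 * b ^ (pr (V k) (V (k + 1))).2 := fun k hk => by
      have : (V k).2 = 0 ∨ (V k).2 = 1 := by revert k; decide
      rcases this with h | h
      · rw [pr, if_pos h]; exact H.m0 0 h (by simp)
      · rw [pr, if_neg (by omega)]; exact H.m1 (V (k + 1)).1 h (by simp) (by simp)
    replace h1 : k < 16 := by omega
    replace h3 : l < 16 := by omega
    rw [e k h1, e l h3] at h
    have := h.imp (H.inj _ _ _ _) (H.inj _ _ _ _)
    clear h e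
    simp only [Int.dvd_iff_emod_eq_zero] at this
    revert l
    revert k
    decide +kernel
  · have hq' : (2 : ℤ) ≤ q ∧ (q : ℤ) % 2 = 0 := by omega
    refine ⟨_, cyc m (fun k => a ^ (U q k).1 * b ^ (U q k).2) (· * ·) ?_
      fun k l h0 h1 h2 h3 h => ?_⟩
    · rw [Ulast hq' (by omega), U1 hq' (by omega), U0]; simp
    have h1 : k < 16 * q := by omega
    have h3 : l < 16 * q := by omega
    rcases h with h | h
    · have a := ed hq' h0 h1
      have b := ed hq' h2 h3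
      exact ED_inj hq' a b (H.tri h (ED_rng hq' a).1 (ED_rng hq' a).2 (ED_rng hq' b).1 (ED_rng hq' b).2)
    · obtain ⟨p, t, e, a⟩ := ld H hq' h0 h1
      obtain ⟨p', t', e', b⟩ := ld H hq' h2 h3
      exact LD_inj hq' a b (H.tri (e.symm.trans (h.trans e')) (LD_rng hq' a).1 (LD_rng hq' a).2
        (LD_rng hq' b).1 (LD_rng hq' b).2)

theorem result (n : ℕ) (hn : 4 ≤ n) (G : Type*) [Group G] [Fintype G] (a b : G)
    (hc : Fintype.card G = 2 ^ n) (hg : Subgroup.closure {a, b} = ⊤) (ha : a ^ 2 ^ (n - 1) = 1)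
    (hb : b ^ 2 = 1) (hba : b * a * b⁻¹ = a ^ (2 ^ (n - 2) - 1)) :
    ∃ g : ZMod (2 ^ n) → G, Bijective g ∧ Bijective fun i => g i * g (i + 1) := by
  obtain ⟨j, rfl⟩ := Nat.exists_eq_add_of_le' hn
  obtain ⟨g, h1, h2⟩ := key (mkSD (2 ^ j) (by positivity) a b
    (by rw [← ha, show j + 4 - 1 = j + 3 from rfl]; ring_nf) hb
    (by rw [hba, show j + 4 - 2 = j + 2 from rfl]; ring_nf) (by rw [hc]; ring) hg)
    (by cases j <;> simp [pow_succ, Nat.one_le_iff_ne_zero]) (2 ^ (j + 4)) (by ring)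
  exact ⟨g, (Fintype.bijective_iff_injective_and_card _).2 ⟨h1, by simp [hc]⟩,
    (Fintype.bijective_iff_injective_and_card _).2 ⟨h2, by simp [hc]⟩⟩

end Pool.Agent.Results.MP_3abf0f_al.Harmonious
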